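import Pool.Agent.H72.NT.Sharp

/-!
# The `n`-term abc theorem for polynomials with the exact constant `2 n - 5`, over one triple `A + B + C = 0`

For polynomials `f_1, …, f_n` over a field of characteristic zero with sum zero, without vanishing
proper subsum and without common zero, with `r` different zeros in all, the expected bound is
`deg f_k ≤ (2 n - 5) (r - 1)` (Browkin and Brzeziński). It is proved here for all relations between
monomials (constant) `A ^ α B ^ β C ^ γ`, `α + β + γ = m`, in the members of an abc triple of polynomials, in
particular whenever there are at most two zeros, and it is attained for all `n ≥ 3` and `r ≥ 2`.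

Proof. The relation is `(a + b + c) G` with a polynomial `G` in two variables whose support is connected
(a component would give a vanishing subsum) and touches all three sides of the triangle of exponents.
Colour the lattice points by the sign of the coefficient of `G`; at the zeros of `G` use one of the three
patterns `(-1) ^ i`, `(-1) ^ j`, `(-1) ^ (i + j)`, according to the side of the triangle which the component
of the zeros does not touch (by the uniqueness of the winner of the game of Y a component of zeros does
not touch all three sides). Count the monochromatic edges in the two families of triangles: `m ≤ 2 n - 5`.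
General fields of characteristic zero: a `ℚ`-linear functional. Then the theorem of Mason and Stothers
for the triple.
-/

set_option autoImplicit false

namespace Pool.Agent.Results.MP_a95293_nt.FunctionFieldOneTriple

open Finset Polynomial

universe u

/-- the `n` polynomials have no common zero, their sum is zero and no proper subsum is zero -/
def AdmissiblePoly {K : Type*} [Field K] {n : ℕ} (f : Fin n → K[X]) : Prop :=
  (¬ ∃ x, ∀ k, (f k).IsRoot x) ∧ ∑ k, f k = 0 ∧
    ∀ S : Finset (Fin n), S.Nonempty → S ≠ univ → ∑ k ∈ S, f k ≠ 0

/-- the number of the different zeros of the product of the polynomials -/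
noncomputable def numZeros {K : Type*} [Field K] {n : ℕ} (f : Fin n → K[X]) : ℕ :=
  {x : K | ∃ k, (f k).IsRoot x}.ncard

theorem result :
    -- (1) relations between monomials in an abc triple of polynomials
    (∀ (K : Type u) [Field K] [CharZero K] [IsAlgClosed K] (n : ℕ), 3 ≤ n →
      ∀ f : Fin n → K[X], AdmissiblePoly f → (∃ k, (f k).natDegree ≠ 0) →
      ∀ A B C' : K[X], A + B + C' = 0 → IsCoprime A B →
      ∀ (m : ℕ) (c : Fin n → K) (α β γ : Fin n → ℕ), (∀ k, α k + β k + γ k = m) →
      (∀ k, f k = C (c k) * A ^ α k * B ^ β k * C' ^ γ k) →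
      ∀ k, (f k).natDegree ≤ (2 * n - 5) * (numZeros f - 1)) ∧
    -- (2) all relations with at most two different zeros
    (∀ (K : Type u) [Field K] [CharZero K] [IsAlgClosed K] (n : ℕ), 3 ≤ n →
      ∀ f : Fin n → K[X], AdmissiblePoly f → (∃ p q : K, ∀ k x, (f k).IsRoot x → x = p ∨ x = q) →
      ∀ k, (f k).natDegree ≤ 2 * n - 5) ∧
    -- (3) the bound in (1) is attained for every number of terms and every number of zeros
    (∀ (K : Type u) [Field K] [CharZero K] [IsAlgClosed K] (n : ℕ), 3 ≤ n → ∀ r : ℕ, 2 ≤ r →
      ∃ f : Fin n → K[X], AdmissiblePoly f ∧ numZeros f = r ∧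
        (∀ k, ∃ (c : K) (α β γ : ℕ), α + β + γ = 2 * n - 5 ∧
          f k = C c * (X ^ (r - 1)) ^ α * (1 - X ^ (r - 1)) ^ β * (-1) ^ γ) ∧
        ∃ k, (f k).natDegree = (2 * n - 5) * (r - 1)) := by
  classical
  refine ⟨?_, ?_, ?_⟩
  · intro K _ _ _ n hn f hf hnc A B D hABD hco m c α β γ hdeg hform k
    obtain ⟨hcom, hsum, hsub⟩ := hf
    have h := H72.NT.ff_main (by simpa using hn) A B D hABD hco c α β γ m hdeg f hform hsum hsub hcom
      hnc k
    rw [Fintype.card_fin] at h
    have hf0 : ∀ k, f k ≠ 0 := by
      intro k h0
      refine hsub {k} (Finset.singleton_nonempty k) ?_ (by simpa using h0)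
      intro h
      have := congrArg Finset.card h
      rw [Finset.card_singleton, Finset.card_univ, Fintype.card_fin] at this
      omega
    have hset : {x : K | ∃ k, (f k).IsRoot x} = ↑(∏ k, f k).roots.toFinset := by
      ext x
      rw [Finset.mem_coe, Multiset.mem_toFinset, mem_roots (Finset.prod_ne_zero_iff.2 fun k _ => hf0 k),
        isRoot_prod]
      simp
    unfold numZeros
    rw [hset, Set.ncard_coe_finset]
    exact h
  · intro K _ _ _ n hn f hf ⟨p, q, hpq⟩ k
    obtain ⟨hcom, hsum, hsub⟩ := hf
    have h := H72.NT.two_zeros (by simpa using hn) p q f hpq hsum hsub hcom k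
    rw [Fintype.card_fin] at h
    omega
  · intro K _ _ _ n hn r hr
    obtain ⟨f, h1, h2, h3, h4, h5, h6⟩ := H72.NT.sharp (K := K) n hn (r - 1) (by omega)
    refine ⟨f, ⟨h1, h2, h3⟩, ?_, h4, h6⟩
    unfold numZeros
    rw [h5]
    omega

end Pool.Agent.Results.MP_a95293_nt.FunctionFieldOneTriple
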