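import Pool.Agent.H72.NT.Tup
import Pool.Agent.H72.NT.IntB

/-!
# The `n`-term abc inequality for relations between monomials in one triple `a + b + c = 0` of integers

Admissible `n`-tuples of the form `x_k = e_k a ^ α_k b ^ β_k c ^ γ_k` with `a + b + c = 0`, `gcd (a, b) = 1`,
`α_k + β_k + γ_k = m`, integers `|e_k| ≤ H`, and `M = max (|a|, |b|, |c|)` larger than
`2 n H m ^ (n 2 ^ n)` (so that a priori the members may be as large as `exp (M ^ δ)`): then
`max |x_k| ≤ H M ^ (2 n - 5)`, and the exponent `2 n - 5` is attained for every `n`. So for these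
tuples the `n`-term inequality with the exponent `(2 n - 5) κ` follows from the 3-term inequality with the
exponent `κ` for the triple.

Proof. Reducing modulo powers of `a` (or `b`) the polynomial of the terms with small `α_k` vanishes to a
large order at zero, so that it vanishes (differential operators which kill the terms one after the
other); as no subsum is zero, the relation is an identity between polynomials. Now the combinatorial
theorem of `Pool.Agent.H72.NT.Comb`.
-/

set_option autoImplicit false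

namespace Pool.Agent.Results.MP_a95293_nt.IntegersOneTriple

open Finset Polynomial

/-- the `n` integers have greatest common divisor one, their sum is zero and no proper subsum is zero -/
def AdmissibleInt {n : ℕ} (x : Fin n → ℤ) : Prop :=
  Finset.univ.gcd x = 1 ∧ ∑ k, x k = 0 ∧
    ∀ S : Finset (Fin n), S.Nonempty → S ≠ univ → ∑ k ∈ S, x k ≠ 0

/-- the radical of an integer -/
def rad (N : ℤ) : ℕ := N.natAbs.primeFactors.prod id

theorem result :
    -- (1) the upper bound
    (∀ (n : ℕ), 3 ≤ n → ∀ x : Fin n → ℤ, AdmissibleInt x →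
      ∀ a b c : ℤ, a + b + c = 0 → IsCoprime a b →
      ∀ (m H : ℕ) (e : Fin n → ℤ) (α β γ : Fin n → ℕ), (∀ k, α k + β k + γ k = m) →
      (∀ k, |e k| ≤ H) → (∀ k, x k = e k * a ^ α k * b ^ β k * c ^ γ k) →
      ((n * H * 2 ^ (m + 1) : ℤ) < max |a| (max |b| |c|) ∨
        (2 * n * H * m ^ (n * 2 ^ n) : ℤ) < max |a| (max |b| |c|)) →
      (∀ k, |x k| ≤ H * (max |a| (max |b| |c|)) ^ (2 * n - 5)) ∧
      ∀ κ : ℝ, 0 ≤ κ → ((max |a| (max |b| |c|) : ℤ) : ℝ) ≤ (rad (a * b * c) : ℝ) ^ κ →
        ∀ k, (|x k| : ℝ) ≤ H * (rad (∏ k, x k) : ℝ) ^ (κ * (2 * n - 5 : ℕ))) ∧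
    -- (2) the exponent is attained
    (∀ n : ℕ, 3 ≤ n → ∃ H B : ℕ, ∀ a b : ℕ, 0 < a → 0 < b → Nat.Coprime a b → B < a + b →
      ∃ x : Fin n → ℤ, AdmissibleInt x ∧
        (∀ k, ∃ (e : ℤ) (α β γ : ℕ), α + β + γ = 2 * n - 5 ∧ |e| ≤ H ∧
          x k = e * (a : ℤ) ^ α * (b : ℤ) ^ β * (-((a : ℤ) + b)) ^ γ) ∧
        ∃ k, |x k| = ((a + b : ℕ) : ℤ) ^ (2 * n - 5)) := by
  classical
  refine ⟨?_, fun n hn => H72.NT.int_sharp n hn⟩
  · intro n hn x hx a b c habc hco m H e α β γ hdeg hH hform hbig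
    obtain ⟨hgcd, hsum, hsub⟩ := hx
    have hgcd' : ∀ d : ℤ, (∀ k, d ∣ x k) → IsUnit d := fun d hd => by
      have : d ∣ Finset.univ.gcd x := Finset.dvd_gcd fun k _ => hd k
      rw [hgcd] at this
      exact isUnit_of_dvd_one this
    have h : ∀ k, |x k| ≤ H * (max |a| (max |b| |c|)) ^ (2 * n - 5) ∧
        (|x k| ≤ H ∨ (a ∣ ∏ k, x k) ∧ (b ∣ ∏ k, x k) ∧ (c ∣ ∏ k, x k)) := by
      intro k
      rcases hbig with hbig | hbig
      · have h := H72.NT.int_main (by simpa using hn) a b c habc hco e α β γ m H hdeg hH x hform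
          hsum hsub hgcd' (by simpa using hbig) k
        rw [Fintype.card_fin] at h
        exact h
      · have h := H72.NT.int_main2 (by simpa using hn) a b c habc hco e α β γ m H hdeg hH x hform
          hsum hsub hgcd' (by simpa using hbig) k
        rw [Fintype.card_fin] at h
        exact h
    refine ⟨fun k => (h k).1, fun κ hκ hM k => ?_⟩
    have hx0 : ∀ k, x k ≠ 0 := by
      intro k h0
      refine hsub {k} (Finset.singleton_nonempty k) ?_ (by simpa using h0)
      intro h
      have := congrArg Finset.card h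
      rw [Finset.card_singleton, Finset.card_univ, Fintype.card_fin] at this
      omega
    have hP : ∏ k, x k ≠ 0 := Finset.prod_ne_zero_iff.2 fun k _ => hx0 k
    have hR1 : (1 : ℝ) ≤ (rad (∏ k, x k) : ℝ) := by
      exact_mod_cast H72.NT.rad_pos _
    rcases (h k).2 with hle | ⟨ha, hb, hc⟩
    · have h1 : (|x k| : ℝ) ≤ H := by exact_mod_cast hle
      have h2 : (1 : ℝ) ≤ (rad (∏ k, x k) : ℝ) ^ (κ * (2 * n - 5 : ℕ)) :=
        Real.one_le_rpow hR1 (by positivity)
      nlinarith [Nat.cast_nonneg (α := ℝ) H]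
    · have h1 : rad (a * b * c) ≤ rad (∏ k, x k) := H72.NT.rad_le hP ha hb hc
      have h2 : (|x k| : ℝ) ≤ H * ((max |a| (max |b| |c|) : ℤ) : ℝ) ^ (2 * n - 5) := by
        exact_mod_cast (h k).1
      have h3 : (0 : ℝ) ≤ ((max |a| (max |b| |c|) : ℤ) : ℝ) := by
        exact_mod_cast (abs_nonneg a).trans (le_max_left _ _)
      have h4 : ((max |a| (max |b| |c|) : ℤ) : ℝ) ^ (2 * n - 5) ≤
          (rad (∏ k, x k) : ℝ) ^ (κ * (2 * n - 5 : ℕ)) := by
        calc ((max |a| (max |b| |c|) : ℤ) : ℝ) ^ (2 * n - 5)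
            ≤ ((rad (a * b * c) : ℝ) ^ κ) ^ (2 * n - 5) := pow_le_pow_left₀ h3 hM _
          _ ≤ ((rad (∏ k, x k) : ℝ) ^ κ) ^ (2 * n - 5) := by
              refine pow_le_pow_left₀ (by positivity) ?_ _
              exact Real.rpow_le_rpow (by positivity) (by exact_mod_cast h1) hκ
          _ = (rad (∏ k, x k) : ℝ) ^ (κ * (2 * n - 5 : ℕ)) := by
              rw [Real.rpow_mul (by positivity), Real.rpow_natCast]
      exact h2.trans (mul_le_mul_of_nonneg_left h4 (Nat.cast_nonneg H))

end Pool.Agent.Results.MP_a95293_nt.IntegersOneTriple
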